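import Pool.Agent.ABH.Kit
import Pool.Agent.SPG.REVH

/-! ABH: compatibility with the Hodge classes implies all Hodge relations. -/

open scoped BigOperators
open Matrix

namespace Pool.Agent.ABH

open Pool.Agent.DRB Pool.Agent.ABT
open Pool.Agent.SPF (Alg)
open Pool.Agent.SPG

noncomputable section

variable {g : ℕ}

theorem pb_pure {ι ι' : Type} [Fintype ι'] {n : ℕ} (M : Matrix ι' ι ℂ) (w : Fin n → ι' → ℂ) :
    pb M (fun I => ∏ s, w s (I s)) = fun J => ∏ s, (w s ᵥ* M) (J s) := by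
  classical
  funext J
  simp only [pb, Matrix.vecMul, dotProduct]
  rw [Finset.prod_univ_sum, Fintype.piFinset_univ]
  exact Finset.sum_congr rfl fun I _ => by rw [Finset.prod_mul_distrib]

theorem map_pb {ι ι' : Type} [Fintype ι'] {n : ℕ} (τ : ℂ ≃ₐ[ℚ] ℂ) (M : Matrix ι' ι ℂ)
    (α : (Fin n → ι') → ℂ) :
    (fun J => τ (pb M α J)) = pb (M.map τ) (fun I => τ (α I)) := by
  funext J
  simp [pb, map_sum, map_mul, map_prod]

theorem pb_zero {ι ι' : Type} [Fintype ι'] {n : ℕ} (M : Matrix ι' ι ℂ) :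
    pb M (0 : (Fin n → ι') → ℂ) = 0 := by
  funext J
  simp [pb]

theorem pb_two {ι : Type} [Fintype ι] (X M : Matrix ι ι ℂ) (J : Fin 2 → ι) :
    pb X (fun I : Fin 2 → ι => M (I 0) (I 1)) J = (Xᵀ * M * X) (J 0) (J 1) := by
  rw [pb, Fintype.sum_equiv (finTwoArrowEquiv ι) _
    (fun p => M p.1 p.2 * (X p.1 (J 0) * X p.2 (J 1)))]
  · rw [Fintype.sum_prod_type, Finset.sum_comm]
    simp only [Matrix.mul_apply, Finset.sum_mul, Matrix.transpose_apply]
    exact Finset.sum_congr rfl fun j _ => Finset.sum_congr rfl fun i _ => by ring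
  · intro I
    simp [Fin.prod_univ_two]

/-- Hodge classes in `H¹ ⊗ H¹`. -/
theorem hodge1 (A : AbVar g) (M : Matrix (Idx g) (Idx g) ℂ) (B : Matrix (Idx g) (Idx g) ℚ)
    (hM : ∀ i j, IsAlgebraic ℚ (M i j)) (h0 : ∀ i j, M (Sum.inr i) (Sum.inr j) = 0)
    (h : A.perᵀ * M * A.per = tpi • (cm B : Matrix (Idx g) (Idx g) ℂ)) :
    IsHodgeClass A 1 (fun I : Fin 2 → Idx g => M (I 0) (I 1)) (fun J : Fin 2 → Idx g => B (J 0) (J 1)) where
  alg := fun I => hM _ _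
  rat := by
    intro J
    have h1 := pb_two A.per M J
    rw [h] at h1
    rw [pow_one]
    exact h1
  type := by
    intro I hI
    have key : ∃ l : Fin (2 * 1), (I l).isLeft = true := by
      rcases h3 : I 0 with a | a
      · exact ⟨0, by rw [h3]; rfl⟩
      · rcases h4 : I 1 with b | b
        · exact ⟨1, by rw [h4]; rfl⟩
        · exfalso
          apply hI
          change M (I 0) (I 1) = 0
          rw [h3, h4, h0]
    obtain ⟨l, hl⟩ := key
    exact Finset.card_pos.mpr ⟨l, Finset.mem_filter.mpr ⟨Finset.mem_univ _, hl⟩⟩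

theorem GH_two {A : AbVar g} {h : (Pt g)ˣ} (hh : h ∈ GH A) {M : Matrix (Idx g) (Idx g) ℂ}
    {B : Matrix (Idx g) (Idx g) ℚ}
    (hM : IsHodgeClass A 1 (fun I : Fin 2 → Idx g => M (I 0) (I 1))
      (fun J : Fin 2 → Idx g => B (J 0) (J 1))) :
    (h : Pt g).1ᵀ * cm B * (h : Pt g).1 = (h : Pt g).2 • (cm B : Matrix (Idx g) (Idx g) ℂ) := by
  have h1 := hh 1 _ _ hM
  ext i j
  have h2 := congrFun h1 (![i, j] : Fin 2 → Idx g)
  have h3 := pb_two (h : Pt g).1 (cm B) (![i, j] : Fin 2 → Idx g)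
  have h4 : pb (n := 2 * 1) (h : Pt g).1 (cq fun J : Fin 2 → Idx g => B (J 0) (J 1))
      (![i, j] : Fin 2 → Idx g) =
    pb (h : Pt g).1 (fun I : Fin 2 → Idx g => cm B (I 0) (I 1)) (![i, j] : Fin 2 → Idx g) := rfl
  rw [h4, h3, pow_one] at h2
  exact h2

theorem jm_isAlg (i j : Idx g) : IsAlgebraic ℚ (Jm g i j) := by
  obtain ⟨J, hJ⟩ := jm_alg g
  rw [← hJ]
  exact mem_algebraicClosure_iff.mp (J i j).2

theorem jm_rr (i j : Fin g) : Jm g (Sum.inr i) (Sum.inr j) = 0 := by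
  simp [Jm]

theorem jm_ll (i j : Fin g) : Jm g (Sum.inl i) (Sum.inl j) = 0 := by
  simp [Jm]

theorem GH_sim {A : AbVar g} {h : (Pt g)ˣ} (hh : h ∈ GH A) :
    (h : Pt g).1ᵀ * A.riem * (h : Pt g).1 = (h : Pt g).2 • A.riem := by
  obtain ⟨R, hR⟩ := riem_rat A
  have h1 := hodge1 A (Jm g) R jm_isAlg jm_rr (by rw [hR]; exact (leg_proof g A).2.1)
  have h2 := GH_two hh h1
  rw [hR] at h2
  exact h2

theorem GH_comm {A : AbVar g} {h : (Pt g)ˣ} (hh : h ∈ GH A) : A.Comm (h : Pt g).1 := by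
  intro α hα
  obtain ⟨ρ, r1, r2, r3⟩ := hα
  obtain ⟨R, hR⟩ := riem_rat A
  have hc : (cm (αᵀ * R) : Matrix (Idx g) (Idx g) ℂ) = (AbVar.toC α)ᵀ * A.riem := by
    rw [← hR]
    ext i j
    simp [cm, AbVar.toC, Matrix.mul_apply]
  have h1 := hodge1 A (ρᵀ * Jm g) (αᵀ * R) ?_ ?_ ?_
  · have h2 := GH_two hh h1
    rw [hc] at h2
    have h3 := GH_sim hh
    have hu : IsUnit (h : Pt g).1 := ⟨(MulEquiv.prodUnits h).1, rfl⟩
    have hu' : IsUnit (A.riem * (h : Pt g).1) :=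
      ((Matrix.isUnit_iff_isUnit_det _).mpr (leg_proof g A).2.2.1).mul hu
    have h4 : ((h : Pt g).1ᵀ * (AbVar.toC α)ᵀ) * (A.riem * (h : Pt g).1) =
        ((AbVar.toC α)ᵀ * (h : Pt g).1ᵀ) * (A.riem * (h : Pt g).1) := by
      have h5 : ((h : Pt g).1ᵀ * (AbVar.toC α)ᵀ) * (A.riem * (h : Pt g).1) =
          (h : Pt g).1ᵀ * ((AbVar.toC α)ᵀ * A.riem) * (h : Pt g).1 := by
        simp only [Matrix.mul_assoc]
      have h6 : ((AbVar.toC α)ᵀ * (h : Pt g).1ᵀ) * (A.riem * (h : Pt g).1) =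
          (AbVar.toC α)ᵀ * ((h : Pt g).1ᵀ * A.riem * (h : Pt g).1) := by
        simp only [Matrix.mul_assoc]
      rw [h5, h6, h2, h3, Matrix.mul_smul]
    have h7 := hu'.mul_right_cancel h4
    rw [← Matrix.transpose_mul, ← Matrix.transpose_mul] at h7
    exact (Matrix.transpose_injective h7).symm
  · intro i j
    rw [Matrix.mul_apply]
    exact AbVar.isAlgebraic_sum _ _ fun k _ => (r1 k i).mul (jm_isAlg k j)
  · intro i j
    rw [Matrix.mul_apply, Fintype.sum_sum_type]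
    simp [r2, jm_rr]
  · have h5 : A.perᵀ * (ρᵀ * Jm g) * A.per = (ρ * A.per)ᵀ * Jm g * A.per := by
      rw [Matrix.transpose_mul]
      simp only [Matrix.mul_assoc]
    rw [h5, ← r3, Matrix.transpose_mul, hc]
    have h6 : (AbVar.toC α)ᵀ * A.perᵀ * Jm g * A.per =
        (AbVar.toC α)ᵀ * (A.perᵀ * Jm g * A.per) := by
      simp only [Matrix.mul_assoc]
    rw [h6, (leg_proof g A).2.1, Matrix.mul_smul]

end

end Pool.Agent.ABH
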