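import Pool.Agent.ABH.Defs2
import Pool.Agent.ABH.Hodge
import Pool.Agent.SPH.HPI
import Pool.Agent.SPH.Stmts
import Pool.Agent.SPG.MU

/-! ABH: Hodge classes are algebraic de Rham classes (for the class `Rank2CM`). -/

open scoped BigOperators
open Matrix

namespace Pool.Agent.ABH

open Pool.Agent.DRB Pool.Agent.ABT
open Pool.Agent.DRB.SigX (kk kb mem_kk mem_kb)

noncomputable section

variable {g : ℕ}

/-! ### the action of `μ(z)` on a Hodge class -/

/-- a polynomial family of pull backs -/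
def qp {n : ℕ} (α : (Fin n → Idx g) → ℂ) (Y Z : Matrix (Idx g) (Idx g) ℂ) (J : Fin n → Idx g) :
    Polynomial ℂ :=
  ∑ I, Polynomial.C (α I) * ∏ l, (Polynomial.C (Y (I l) (J l)) + Polynomial.X * Polynomial.C (Z (I l) (J l)))

theorem qp_eval {n : ℕ} (α : (Fin n → Idx g) → ℂ) (Y Z : Matrix (Idx g) (Idx g) ℂ) (J : Fin n → Idx g)
    (z : ℂ) : (qp α Y Z J).eval z = pb (Y + z • Z) α J := by
  simp only [qp, pb, Polynomial.eval_finsetSum, Polynomial.eval_mul, Polynomial.eval_C,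
    Polynomial.eval_prod, Polynomial.eval_add, Polynomial.eval_X, Matrix.add_apply, Matrix.smul_apply,
    smul_eq_mul]

theorem qp_deg {n : ℕ} (α : (Fin n → Idx g) → ℂ) (Y Z : Matrix (Idx g) (Idx g) ℂ) (J : Fin n → Idx g) :
    (qp α Y Z J).natDegree ≤ n := by
  refine Polynomial.natDegree_sum_le_of_forall_le _ _ fun I _ => ?_
  refine (Polynomial.natDegree_C_mul_le _ _).trans ?_
  refine (Polynomial.natDegree_prod_le _ _).trans ?_
  refine (Finset.sum_le_card_nsmul _ _ 1 fun l _ => ?_).trans (by simp)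
  refine (Polynomial.natDegree_add_le _ _).trans ?_
  rw [Polynomial.natDegree_C]
  refine max_le (Nat.zero_le _) ((Polynomial.natDegree_mul_le).trans ?_)
  rw [Polynomial.natDegree_C, Polynomial.natDegree_X]

theorem qp_dvd {k : ℕ} {α : (Fin (2 * k) → Idx g) → ℂ} {Y Z : Matrix (Idx g) (Idx g) ℂ}
    (hY : ∀ i j, Y (Sum.inl i) j = 0)
    (hα : ∀ I, α I ≠ 0 → k ≤ (Finset.univ.filter fun l => (I l).isLeft = true).card)
    (J : Fin (2 * k) → Idx g) : Polynomial.X ^ k ∣ qp α Y Z J := by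
  refine Finset.dvd_sum fun I _ => ?_
  by_cases h : α I = 0
  · rw [h, Polynomial.C_0, zero_mul]
    exact dvd_zero _
  · refine Dvd.dvd.mul_left ?_ _
    have h1 := hα I h
    refine (pow_dvd_pow _ h1).trans ?_
    refine dvd_trans ?_ (Finset.prod_dvd_prod_of_subset _ _ _
      (Finset.filter_subset (fun l => (I l).isLeft = true) Finset.univ))
    rw [← Finset.prod_const]
    refine Finset.prod_dvd_prod_of_dvd _ _ fun l hl => ?_
    have h2 : (I l).isLeft = true := (Finset.mem_filter.mp hl).2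
    obtain ⟨i, hi⟩ := Sum.isLeft_iff.mp h2
    rw [hi, hY, Polynomial.C_0, zero_add]
    exact dvd_mul_right _ _

/-- A polynomial divisible by `X ^ k` and with the reality property is a multiple of `X ^ k`. -/
theorem poly_real (k : ℕ) (Q : Polynomial ℂ) (hd : Q.natDegree ≤ 2 * k) (hk : Polynomial.X ^ k ∣ Q)
    (hr : ∀ w : ℂ, w ≠ 0 → (starRingEnd ℂ) (Q.eval ((starRingEnd ℂ) w)) = w ^ (2 * k) * Q.eval w⁻¹)
    (z : ℂ) : Q.eval z = z ^ k * Q.eval 1 := by
  classical
  have h1 : Q.map (starRingEnd ℂ) = Polynomial.reflect (2 * k) Q := by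
    refine Polynomial.eq_of_infinite_eval_eq _ _ ?_
    refine Set.Infinite.mono ?_ (Set.Finite.infinite_compl (Set.finite_singleton (0 : ℂ)))
    intro w hw
    have hw0 : w ≠ 0 := hw
    have h2 := hr w hw0
    have h3 : (Q.map (starRingEnd ℂ)).eval w = (starRingEnd ℂ) (Q.eval ((starRingEnd ℂ) w)) := by
      rw [Polynomial.eval_map, ← Polynomial.eval₂_at_apply, starRingEnd_self_apply]
    have h4 : (Polynomial.reflect (2 * k) Q).eval w * w⁻¹ ^ (2 * k) = Q.eval w⁻¹ := by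
      let _ : Invertible (w⁻¹) := invertibleOfNonzero (inv_ne_zero hw0)
      have h5 := Polynomial.eval₂_reflect_mul_pow (RingHom.id ℂ) (w⁻¹) (2 * k) Q hd
      simp only [invOf_eq_inv, inv_inv, Polynomial.eval₂_id] at h5
      exact h5
    change (Q.map (starRingEnd ℂ)).eval w = (Polynomial.reflect (2 * k) Q).eval w
    rw [h3, h2, ← h4, mul_comm ((Polynomial.reflect (2 * k) Q).eval w), ← mul_assoc, ← mul_pow,
      mul_inv_cancel₀ hw0, one_pow, one_mul]
  have h2 : ∀ m, m < k → Q.coeff m = 0 := Polynomial.X_pow_dvd_iff.mp hk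
  have h3 : Q = Polynomial.C (Q.coeff k) * Polynomial.X ^ k := by
    ext m
    rw [Polynomial.coeff_C_mul_X_pow]
    rcases lt_trichotomy m k with h | h | h
    · rw [h2 m h, if_neg h.ne]
    · rw [h, if_pos rfl]
    · rw [if_neg h.ne']
      by_cases hm : m ≤ 2 * k
      · have h4 := congrArg (fun P : Polynomial ℂ => P.coeff m) h1
        simp only [Polynomial.coeff_map, Polynomial.coeff_reflect, Polynomial.revAt_le hm] at h4
        rw [h2 (2 * k - m) (by omega)] at h4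
        exact (map_eq_zero _).mp h4
      · exact Polynomial.coeff_eq_zero_of_natDegree_lt (by omega)
  rw [h3]
  simp
  ring

/-- the matrix `1 + (z - 1) π` -/
def xz (π : Matrix (Idx g) (Idx g) ℂ) (z : ℂ) : Matrix (Idx g) (Idx g) ℂ := 1 + (z - 1) • π

theorem map_pb' {ι ι' : Type} [Fintype ι'] {n : ℕ} (M : Matrix ι' ι ℂ) (β : (Fin n → ι') → ℚ)
    (J : Fin n → ι) : (starRingEnd ℂ) (pb M (cq β) J) = pb (cc M) (cq β) J := by
  simp [pb, cq, cc, map_sum, map_mul, map_prod]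

open SPH.HPI_ DRB.SigX in
theorem pi_inl (A : AbVar g) (i : Fin g) (j : Idx g) :
    (A.per * (1 - pi0 A)) (Sum.inl i) j = 0 := by
  have h1 : (1 - pi0 A) *ᵥ (Pi.single j 1) ∈ kk A := by
    rw [mem_kk_iff, Matrix.mulVec_mulVec, Matrix.mul_sub, Matrix.mul_one, pi0_sq, sub_self,
      Matrix.zero_mulVec]
  rw [mem_kk] at h1
  have h2 : (A.per *ᵥ ((1 - pi0 A) *ᵥ (Pi.single j 1))) (Sum.inl i) = 0 := congrFun h1 i
  rw [Matrix.mulVec_mulVec, Matrix.mulVec_single_one] at h2
  exact h2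

open SPH.HPI_ DRB.SigX in
theorem pi_cc (A : AbVar g) : cc (pi0 A) = 1 - pi0 A := by
  have key : ∀ v, cc (pi0 A) *ᵥ v = cv (pi0 A *ᵥ cv v) := by
    intro v
    rw [cv_mulVec, cv_cv]
  refine ext_split A (fun v hv => ?_) (fun v hv => ?_)
  · have h1 : cv v ∈ kb A := by
      rw [mem_kb, cv_cv]; exact hv
    rw [key, pi0_kb A h1, cv_cv, Matrix.sub_mulVec, Matrix.one_mulVec, pi0_kk A hv, sub_zero]
  · have h1 : cv v ∈ kk A := by
      rw [mem_kk]; exact hv
    rw [key, pi0_kk A h1, cv_zero, Matrix.sub_mulVec, Matrix.one_mulVec, pi0_kb A hv, sub_self]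

open SPH.HPI_ in
/-- `μ(z)` acts on a Hodge class by `z ^ k`. -/
theorem mu_class (A : AbVar g) {k : ℕ} {α : (Fin (2 * k) → Idx g) → ℂ}
    {β : (Fin (2 * k) → Idx g) → ℚ} (h : HodgeClass A k α β) (z : ℂ) :
    pb (xz (pi0 A) z) (cq β) = z ^ k • cq β := by
  have hr : pb A.per α = (2 * Real.pi * Complex.I) ^ k • cq β := funext fun J => h.rat J
  have hpi : (2 * Real.pi * Complex.I : ℂ) ^ k ≠ 0 :=
    pow_ne_zero _ (by simp [Real.pi_ne_zero, Complex.I_ne_zero])
  -- the polynomial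
  have hq : ∀ (w : ℂ) (J : Fin (2 * k) → Idx g),
      (qp α (A.per * (1 - pi0 A)) (A.per * pi0 A) J).eval w =
        (2 * Real.pi * Complex.I) ^ k * pb (xz (pi0 A) w) (cq β) J := by
    intro w J
    rw [qp_eval]
    have h1 : A.per * (1 - pi0 A) + w • (A.per * pi0 A) = A.per * xz (pi0 A) w := by
      rw [xz, Matrix.mul_add, Matrix.mul_sub, Matrix.mul_one, Matrix.mul_smul, sub_smul, one_smul]
      abel
    rw [h1, pb_mul, hr, pb_smul]
    rfl
  have h1 : xz (pi0 A) 1 = 1 := by simp [xz]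
  funext J
  let c : ℂ := (2 * Real.pi * Complex.I) ^ k
  let Q : Polynomial ℂ := Polynomial.C c⁻¹ * qp α (A.per * (1 - pi0 A)) (A.per * pi0 A) J
  have hQ : ∀ w, Q.eval w = pb (xz (pi0 A) w) (cq β) J := by
    intro w
    rw [Polynomial.eval_mul, Polynomial.eval_C, hq, ← mul_assoc, inv_mul_cancel₀ hpi, one_mul]
  have h2 := poly_real k Q ((Polynomial.natDegree_C_mul_le _ _).trans (qp_deg _ _ _ _))
    (Dvd.dvd.mul_left (qp_dvd (pi_inl A) h.type J) _) ?_ z
  · rw [hQ, hQ, h1, pb_one] at h2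
    exact h2
  · intro w hw
    rw [hQ, hQ, map_pb']
    have h3 : cc (xz (pi0 A) ((starRingEnd ℂ) w)) = w • xz (pi0 A) w⁻¹ := by
      have h4 : cc (xz (pi0 A) ((starRingEnd ℂ) w)) = 1 + (w - 1) • cc (pi0 A) := by
        ext i j
        simp only [cc, xz, Matrix.map_apply, Matrix.add_apply, Matrix.smul_apply, map_add, smul_eq_mul,
          map_mul, map_sub, map_one, starRingEnd_self_apply, Matrix.one_apply]
        split_ifs <;> simp
      rw [h4, pi_cc, xz, smul_add, smul_smul, smul_sub]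
      have h5 : w * (w⁻¹ - 1) = 1 - w := by
        field_simp
      rw [h5]
      module
    rw [h3, pb_smul_left]
    rfl

/-! ### the graph of a Hodge class -/

/-- the tensor space `H_1^{⊗ 2k}(-k) ⊕ 1` -/
def td (k : ℕ) : TData where
  n := 2
  a := Fin.cons (2 * k) fun _ => 0
  k := Fin.cons (-(k : ℤ)) fun _ => 0

/-- the element `(τ, 1)` -/
def uv {k : ℕ} (τ : (Fin (2 * k) → Idx g) → ℂ) : TIdx (td k) (Idx g) → ℂ := fun p =>
  Fin.cases (motive := fun r => (Fin ((td k).a r) → Idx g) → ℂ) τ (fun _ _ => 1) p.1 p.2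

theorem uv_zero {k : ℕ} (τ : (Fin (2 * k) → Idx g) → ℂ) (K : Fin (2 * k) → Idx g) :
    uv τ ⟨(0 : Fin 2), K⟩ = τ K := rfl

theorem uv_one {k : ℕ} (τ : (Fin (2 * k) → Idx g) → ℂ) (K : Fin 0 → Idx g) :
    uv τ ⟨(1 : Fin 2), K⟩ = 1 := rfl

theorem tact_uv {k : ℕ} (x : Matrix (Idx g) (Idx g) ℂ) (ν : ℂ) (τ : (Fin (2 * k) → Idx g) → ℂ) :
    TAct (td k) x ν (uv τ) = uv (ν ^ (-(k : ℤ)) • pb xᵀ τ) := by
  funext p
  obtain ⟨r, K⟩ := p
  revert K
  refine Fin.cases ?_ (fun i => ?_) r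
  · intro K
    change ν ^ (-(k : ℤ)) * ∑ J : Fin (2 * k) → Idx g, (∏ s, x (K s) (J s)) * τ J =
      ν ^ (-(k : ℤ)) * ∑ J : Fin (2 * k) → Idx g, τ J * ∏ s, xᵀ (J s) (K s)
    congr 1
    refine Finset.sum_congr rfl fun J _ => ?_
    rw [mul_comm]
    rfl
  · intro K
    change ν ^ (0 : ℤ) * ∑ J : Fin 0 → Idx g, (∏ s : Fin 0, x (K s) (J s)) * 1 = 1
    simp

theorem uv_ne {k : ℕ} (τ : (Fin (2 * k) → Idx g) → ℂ) : uv τ ≠ 0 := by
  intro h
  have h1 := congrFun h ⟨(1 : Fin 2), fun l : Fin 0 => l.elim0⟩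
  rw [uv_one] at h1
  exact one_ne_zero h1

/-- If the line of `(τ, 1)` is defined over the algebraic numbers, then `τ` is algebraic. -/
theorem alg_of_line {k : ℕ} (τ : (Fin (2 * k) → Idx g) → ℂ)
    (h : AlgSpan (Submodule.span ℂ {uv τ})) (K : Fin (2 * k) → Idx g) : IsAlgebraic ℚ (τ K) := by
  obtain ⟨v, ⟨hv1, hv2⟩, hv3⟩ : ∃ v, (v ∈ Submodule.span ℂ {uv τ} ∧ ∀ p, IsAlgebraic ℚ (v p)) ∧ v ≠ 0 := by
    by_contra hc
    push Not at hc
    have h1 : Submodule.span ℂ {v | v ∈ Submodule.span ℂ {uv τ} ∧ ∀ p, IsAlgebraic ℚ (v p)} = ⊥ := by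
      rw [Submodule.span_eq_bot]
      intro v hv
      exact hc v hv
    have h2 := h (Submodule.mem_span_singleton_self (uv τ))
    rw [h1, Submodule.mem_bot] at h2
    exact uv_ne τ h2
  obtain ⟨s, rfl⟩ := Submodule.mem_span_singleton.mp hv1
  have hs : s ≠ 0 := by
    rintro rfl
    exact hv3 (zero_smul _ _)
  have h1 : IsAlgebraic ℚ s := by
    have h2 := hv2 ⟨(1 : Fin 2), fun l : Fin 0 => l.elim0⟩
    rw [Pi.smul_apply, uv_one, smul_eq_mul, mul_one] at h2
    exact h2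
  have h3 := hv2 ⟨(0 : Fin 2), K⟩
  rw [Pi.smul_apply, uv_zero, smul_eq_mul] at h3
  have h4 : τ K = s⁻¹ * (s * τ K) := by
    rw [← mul_assoc, inv_mul_cancel₀ hs, one_mul]
  rw [h4]
  exact h1.inv.mul h3

open SPH.HPI_ SPH in
/-- Hodge classes are algebraic. -/
theorem hodge_alg (h6 : SPH.MainStatement6) (A : AbVar g) (hA : A.Rank2CM) {k : ℕ}
    {α : (Fin (2 * k) → Idx g) → ℂ} {β : (Fin (2 * k) → Idx g) → ℚ} (h : HodgeClass A k α β) :
    ∀ I, IsAlgebraic ℚ (α I) := by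
  have hr : pb A.per α = tpi ^ k • cq β := funext fun J => h.rat J
  have hpi : tpi ≠ 0 := by simp [tpi, Real.pi_ne_zero, Complex.I_ne_zero]
  obtain ⟨R, hR⟩ := riem_rat A
  obtain ⟨-, hL, hdet, -⟩ := leg_proof g A
  have hRd : R.det ≠ 0 := by
    intro h0
    rw [← hR] at hdet
    have h1 : (cm R : Matrix (Idx g) (Idx g) ℂ).det = algebraMap ℚ ℂ R.det :=
      (RingHom.map_det (algebraMap ℚ ℂ) R).symm
    rw [h1, h0, map_zero] at hdet
    exact not_isUnit_zero hdet
  have hRu : IsUnit R.det := isUnit_iff_ne_zero.mpr hRd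
  set N : Matrix (Idx g) (Idx g) ℂ := cm R⁻¹ with hN
  have hNE : N * A.riem = 1 := by
    rw [← hR, hN, cm, cm, ← Matrix.map_mul, Matrix.nonsing_inv_mul _ hRu]
    simp
  have hEN : A.riem * N = 1 := mul_eq_one_comm.mp hNE
  set τ : (Fin (2 * k) → Idx g) → ℂ := pb N (cq β) with hτ
  -- the line is a sub-Hodge structure
  have hH : IsHodge A (td k) (Submodule.span ℂ {uv τ}) := by
    constructor
    · rw [RatSpan, Submodule.span_le, Set.singleton_subset_iff]
      refine Submodule.subset_span ⟨Submodule.mem_span_singleton_self _, ?_⟩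
      rintro ⟨r, K⟩
      revert K
      refine Fin.cases ?_ (fun i => ?_) r
      · intro K
        refine ⟨∑ J : Fin (2 * k) → Idx g, β J * ∏ l, R⁻¹ (J l) (K l), ?_⟩
        change pb N (cq β) K = _
        simp [pb, cq, hN, cm]
      · intro K
        exact ⟨1, by rw [Rat.cast_one]; rfl⟩
    · intro z x hx
      rw [Submodule.map_span, Set.image_singleton, tact_uv]
      have h1 : x.val = xz (pi0 A) z.val := (isMu_iff A z x).mp hx
      have h2 := mu_class A h z.val
      rw [← h1] at h2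
      have hxx : x.val * (x⁻¹).val = 1 := by rw [← Units.val_mul, mul_inv_cancel, Units.val_one]
      have h3 : cq β = z.val ^ k • pb (x⁻¹).val (cq β) := by
        rw [← pb_smul, ← h2, ← pb_mul, hxx, pb_one]
      have h4 := SPG.MU_.mu_sim leg_proof hx
      have h5 : N * x.valᵀ = z.val • ((x⁻¹).val * N) := by
        have h6 : N * (x.valᵀ * A.riem * x.val) * (x⁻¹).val * N = N * x.valᵀ := by
          calc N * (x.valᵀ * A.riem * x.val) * (x⁻¹).val * N
              = N * x.valᵀ * A.riem * (x.val * (x⁻¹).val) * N := by simp only [Matrix.mul_assoc]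
            _ = N * x.valᵀ * (A.riem * N) := by rw [hxx, Matrix.mul_one]; simp only [Matrix.mul_assoc]
            _ = N * x.valᵀ := by rw [hEN, Matrix.mul_one]
        rw [h4] at h6
        rw [← h6, Matrix.mul_smul, hNE, Matrix.smul_mul, Matrix.smul_mul, Matrix.one_mul]
      have h6 : z.val ^ (-(k : ℤ)) • pb x.valᵀ τ = τ := by
        rw [hτ, ← pb_mul, h5, pb_smul_left, pb_mul, smul_smul]
        conv_rhs => rw [h3, pb_smul]
        congr 1
        have hz : z.val ≠ 0 := z.ne_zero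
        rw [_root_.zpow_neg, _root_.zpow_natCast, two_mul, pow_add, ← mul_assoc,
          inv_mul_cancel₀ (pow_ne_zero k hz), one_mul]
      rw [h6]
  have hD := ((h6 g A hA).2 (td k) _).mpr hH
  have hD2 := hD.2
  rw [Submodule.map_span, Set.image_singleton] at hD2
  have ht : (2 * Real.pi * Complex.I : ℂ) = tpi := rfl
  rw [ht, tact_uv] at hD2
  have hw := alg_of_line _ hD2
  -- the class in terms of `α`
  have hP : A.per * N * A.perᵀ * Jm g = tpi • (1 : Matrix (Idx g) (Idx g) ℂ) := by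
    have hu : IsUnit A.per.det := A.nondeg
    have h1 : (A.per * N * A.perᵀ * Jm g) * A.per = (tpi • (1 : Matrix (Idx g) (Idx g) ℂ)) * A.per := by
      calc (A.per * N * A.perᵀ * Jm g) * A.per
          = A.per * N * (A.perᵀ * Jm g * A.per) := by simp only [Matrix.mul_assoc]
        _ = tpi • (A.per * (N * A.riem)) := by
            rw [hL, Matrix.mul_smul]; simp only [Matrix.mul_assoc]
        _ = (tpi • (1 : Matrix (Idx g) (Idx g) ℂ)) * A.per := by
            rw [hNE, Matrix.mul_one, Matrix.smul_mul, Matrix.one_mul]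
    have h2 := congrArg (fun M => M * A.per⁻¹) h1
    simp only [Matrix.mul_assoc, Matrix.mul_nonsing_inv _ hu, Matrix.mul_one] at h2
    simpa only [Matrix.mul_assoc] using h2
  have hβ : cq β = (tpi ^ k)⁻¹ • pb A.per α := by
    rw [hr, smul_smul, inv_mul_cancel₀ (pow_ne_zero k hpi), one_smul]
  have hα : α = pb (Jm g) (tpi ^ (-(k : ℤ)) • pb A.perᵀ τ) := by
    rw [hτ, hβ]
    simp only [pb_smul, smul_smul, ← pb_mul]
    rw [hP, pb_smul_left, pb_one, smul_smul, _root_.zpow_neg, _root_.zpow_natCast]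
    have h1 : (tpi ^ k)⁻¹ * (tpi ^ k)⁻¹ * tpi ^ (2 * k) = 1 := by
      rw [two_mul, pow_add]
      field_simp
    rw [h1, one_smul]
  intro I
  rw [hα]
  refine AbVar.isAlgebraic_sum _ _ fun J _ => (hw J).mul ?_
  refine mem_algebraicClosure_iff.1 (prod_mem fun l _ => mem_algebraicClosure_iff.2 (jm_isAlg _ _))
/-- For abelian varieties in the class `Rank2CM` all Hodge classes are de Rham-Betti classes. -/
theorem torsor_eq (h6 : SPH.MainStatement6) (A : AbVar g) (hA : A.Rank2CM) :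
    HodgeTorsor A = Omega A := by
  ext f
  constructor
  · rintro ⟨h1, h2⟩
    exact ⟨h1, fun k α β h => h2 k α β ⟨h.rat, h.type⟩⟩
  · rintro ⟨h1, h2⟩
    exact ⟨h1, fun k α β h => h2 k α β ⟨hodge_alg h6 A hA h, h.rat, h.type⟩⟩

end

end Pool.Agent.ABH
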