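import Pool.Agent.DRB.Defs5
import Pool.Agent.ABT.Defs

/-!
# The torsor of Hodge classes of an abelian variety

`Omega A` is the set of points of `Iso (H¹_dR (A), H¹_B (A)) × 𝔾ₘ` compatible with all Hodge classes on all
powers of the abelian variety `A : AbVar g`.
-/

open scoped BigOperators
open Matrix

namespace Pool.Agent.ABH

open Pool.Agent.DRB Pool.Agent.ABT

noncomputable section

variable {g : ℕ}

/-- `(α, β)` is a Hodge class of codimension `k` in `H¹(A)^{⊗ 2k}`: `α` is an element of
`H¹_dR(A)^{⊗ 2k}`, given by its coordinates in the basis of the products of the basis `dz_i`,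
`d (∂_i log θ)` of `H¹_dR(A)`, which are algebraic numbers; `β` is an element of `H¹(A, ℚ)^{⊗ 2k}`, given by
its values on the products of the basis of `H_1(A, ℤ)`; `c (α) = (2 π i) ^ k β`; and `α` belongs to the `k`-th
step of the Hodge filtration: in every nonzero coordinate at least `k` of the factors are invariant
differentials `dz_i`. -/
structure IsHodgeClass (A : AbVar g) (k : ℕ) (α : (Fin (2 * k) → Idx g) → ℂ)
    (β : (Fin (2 * k) → Idx g) → ℚ) : Prop where
  alg : ∀ I, IsAlgebraic ℚ (α I)
  rat : ∀ J : Fin (2 * k) → Idx g,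
    ∑ I : Fin (2 * k) → Idx g, α I * ∏ l, A.per (I l) (J l) = (2 * Real.pi * Complex.I) ^ k * β J
  type : ∀ I, α I ≠ 0 → k ≤ (Finset.univ.filter fun l => (I l).isLeft = true).card

/-- The complex points of the torsor `Ω_A`: all `(f, λ)` in `Iso` with `f (α) = λ ^ k β` for all Hodge
classes `(α, β)` on all tensor powers of `H¹(A)`, that is, for all Hodge classes on all powers of `A`. -/
def Omega (A : AbVar g) : Set (Pt g) :=
  {f | IsUnit f ∧ ∀ (k : ℕ) (α : (Fin (2 * k) → Idx g) → ℂ) (β : (Fin (2 * k) → Idx g) → ℚ),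
    IsHodgeClass A k α β → ∀ J : Fin (2 * k) → Idx g,
      ∑ I : Fin (2 * k) → Idx g, α I * ∏ l, f.1 (I l) (J l) = f.2 ^ k * β J}

end

end Pool.Agent.ABH
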