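import Pool.Agent.ABH.Rels

/-! ABH: the torsor of Hodge classes is the smallest subtorsor containing the comparison. -/

open scoped BigOperators
open Matrix

namespace Pool.Agent.ABH

open Pool.Agent.DRB Pool.Agent.ABT
open Pool.Agent.SPF (Alg)
open Pool.Agent.SPG

noncomputable section

variable {g : ℕ}

/-- The same for an arbitrary finite index set. -/
theorem keyH' {A : AbVar g} (hPEX : Stmt_PEX) (hPTH : Stmt_PTH)
    (L : IntermediateField ℚ ℂ) (hL : CMSub L) (θ : Set (ℂ ≃ₐ[ℚ] ℂ) → (ℂ ≃ₐ[ℚ] ℂ) → ℂ)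
    (hθ : Tab L θ) (hPHOL : Stmt_PHOL) {S : Type} [Fintype S]
    (q : S → Matrix (Idx g) (Idx g) ℂ) (m : ℤ)
    (hq : ∀ s, A.IsCM (q s)) (hqL : ∀ s i j, q s i j ∈ L)
    (hH : ∀ σ : ℂ ≃ₐ[ℚ] ℂ, (open Classical in ∑ s, if A.Hol ((q s).map σ) then (1 : ℤ) else 0) = -m)
    (h : (Pt g)ˣ) (hh : h ∈ GH A) (z : S → ℂ)
    (hz : ∀ s, (h : Pt g).1 * q s = z s • q s) : (∏ s, z s) * (h : Pt g).2 ^ m = 1 := by
  classical
  -- the number of elements
  have hcard : (Fintype.card S : ℤ) = 2 * (-m) := by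
    have h1 := hH AlgEquiv.refl
    have h2 := hH conjE
    have h3 : ∀ s, (if A.Hol ((q s).map (AlgEquiv.refl : ℂ ≃ₐ[ℚ] ℂ)) then (1 : ℤ) else 0) +
        (if A.Hol ((q s).map conjE) then (1 : ℤ) else 0) = 1 := by
      intro s
      have h4 : (q s).map (AlgEquiv.refl : ℂ ≃ₐ[ℚ] ℂ) = q s := by
        ext i j
        rfl
      have h5 : (q s).map conjE = cc (q s) := rfl
      rw [h4, h5]
      have h6 := (hPHOL g A (q s) (hq s)).2.2.1
      by_cases h7 : A.Hol (q s)
      · have h8 : ¬ A.Hol (cc (q s)) := fun h => h6.1 h h7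
        simp [h7, h8]
      · have h8 : A.Hol (cc (q s)) := h6.2 h7
        simp [h7, h8]
    have h4 := Finset.sum_congr rfl fun s (_ : s ∈ Finset.univ) => h3 s
    rw [Finset.sum_add_distrib, h1, h2] at h4
    simp only [Finset.sum_const, Finset.card_univ, nsmul_eq_mul, mul_one] at h4
    linarith
  obtain ⟨k, hk⟩ : ∃ k : ℕ, (k : ℤ) = -m := ⟨(-m).toNat, Int.toNat_of_nonneg (by omega)⟩
  have hcard' : Fintype.card S = 2 * k := by omega
  obtain ⟨f⟩ : Nonempty (Fin (2 * k) ≃ S) := ⟨(Fintype.equivFinOfCardEq hcard').symm⟩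
  have h1 := keyH (A := A) hPEX hPTH L hL θ hθ hPHOL (fun i => q (f i)) (fun i => hq _) (fun i => hqL _)
    (fun σ => by
      rw [hk, ← hH σ]
      exact Equiv.sum_comp f fun s => if A.Hol ((q s).map σ) then (1 : ℤ) else 0)
    h hh (fun i => z (f i)) (fun i => hz _)
  rw [Equiv.prod_comp f z] at h1
  have h8 : (h : Pt g).2 ≠ 0 := (MulEquiv.prodUnits h).2.ne_zero
  have hm : m = -(k : ℤ) := by omega
  rw [h1, hm, _root_.zpow_neg, zpow_natCast, mul_inv_cancel₀ (pow_ne_zero k h8)]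

theorem GH_rels {A : AbVar g} (hLFLD : Stmt_LFLD) (hPHOL : Stmt_PHOL) (hPEX : Stmt_PEX)
    (hPTH : Stmt_PTH) (hTBLC : Stmt_TBLC) (hRos : DRB.Stmt_Ros) {h : (Pt g)ˣ} (hh : h ∈ GH A) :
    A.HodgeRels (MulEquiv.prodUnits h).1 (MulEquiv.prodUnits h).2 := by
  classical
  intro n m hn y hy
  obtain ⟨hncm, hhw⟩ := hn
  obtain ⟨L, hL, hLp⟩ := hLFLD g A
  obtain ⟨θ, hθ⟩ := hTBLC L hL
  have hC : A.Comm (h : Pt g).1 := GH_comm hh
  have hsim := GH_sim hh
  have hdet : IsUnit A.riem.det := (leg_proof g A).2.2.1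
  have hν0 : (h : Pt g).2 ≠ 0 := (MulEquiv.prodUnits h).2.ne_zero
  have hν : ((MulEquiv.prodUnits h).2 : ℂ) = (h : Pt g).2 := rfl
  have hx : ((MulEquiv.prodUnits h).1 : Matrix (Idx g) (Idx g) ℂ) = (h : Pt g).1 := rfl
  rw [hν]
  rw [hx] at hy
  -- the conjugate component
  have hconj : ∀ p, A.IsCM p → ∀ y : ℂ, (h : Pt g).1 * p = y • p →
      ∃ y' : ℂ, (h : Pt g).1 * cc p = y' • cc p ∧ y * y' = (h : Pt g).2 := by
    intro p hp y hy
    obtain ⟨y', hy'⟩ := (hPHOL g A (cc p) (hPHOL g A p hp).2.1).2.2.2.2 (h : Pt g).1 hC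
    refine ⟨y', hy', ?_⟩
    have h1 := (hRos g A p hp.1).1
    have hcc : A.IsCM (cc p) := (hPHOL g A p hp).2.1
    have h2 : cc p * cc p = cc p := hcc.1.1.2.1
    have h3 : pᵀ * ((h : Pt g).1ᵀ * A.riem * (h : Pt g).1) * cc p = (y * y') • (A.riem * cc p) := by
      calc pᵀ * ((h : Pt g).1ᵀ * A.riem * (h : Pt g).1) * cc p
          = ((h : Pt g).1 * p)ᵀ * A.riem * ((h : Pt g).1 * cc p) := by
            rw [Matrix.transpose_mul]
            simp only [Matrix.mul_assoc]
        _ = (y • pᵀ) * A.riem * (y' • cc p) := by rw [hy, hy', Matrix.transpose_smul]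
        _ = (y * y') • (pᵀ * A.riem * cc p) := by
            rw [Matrix.smul_mul, Matrix.smul_mul, Matrix.mul_smul, smul_smul]
        _ = _ := by rw [h1, Matrix.mul_assoc, h2]
    have h4 : pᵀ * ((h : Pt g).1ᵀ * A.riem * (h : Pt g).1) * cc p =
        (h : Pt g).2 • (A.riem * cc p) := by
      rw [hsim, Matrix.mul_smul, Matrix.smul_mul, h1, Matrix.mul_assoc, h2]
    rw [h4] at h3
    have h5 : A.riem * cc p ≠ 0 := by
      intro h0
      apply hcc.1.2.1
      have h6 : A.riem⁻¹ * (A.riem * cc p) = 0 := by rw [h0, Matrix.mul_zero]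
      rwa [← Matrix.mul_assoc, Matrix.nonsing_inv_mul _ hdet, Matrix.one_mul] at h6
    have h7 : ((h : Pt g).2 - y * y') • (A.riem * cc p) = 0 := by rw [sub_smul, h3, sub_self]
    rcases smul_eq_zero.1 h7 with h8 | h8
    · exact (sub_eq_zero.1 h8).symm
    · exact absurd h8 h5
  -- nonnegative exponents
  have hex : ∀ p : n.support, ∃ z : ℂ,
      (h : Pt g).1 * (if 0 ≤ n p then p.val else cc p.val) =
        z • (if 0 ≤ n p then p.val else cc p.val) ∧
      y p ^ n p = z ^ (n p).natAbs * (h : Pt g).2 ^ (if 0 ≤ n p then 0 else n p) := by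
    intro p
    have hp := hncm p.val p.2
    by_cases h0 : 0 ≤ n p.val
    · refine ⟨y p.val, ?_, ?_⟩
      · simp only [h0, if_true]
        exact hy p.val p.2
      · simp only [h0, if_true, zpow_zero, mul_one]
        rw [← zpow_natCast, Int.natAbs_of_nonneg h0]
    · obtain ⟨y', h1, h2⟩ := hconj p.val hp (y p.val) (hy p.val p.2)
      refine ⟨y', ?_, ?_⟩
      · simp only [h0, if_false]
        exact h1
      · simp only [h0, if_false]
        have hy0 : y p.val ≠ 0 := by
          intro h3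
          rw [h3, zero_mul] at h2
          exact hν0 h2.symm
        have hy'0 : y' ≠ 0 := by
          intro h3
          rw [h3, mul_zero] at h2
          exact hν0 h2.symm
        rw [← zpow_natCast, ← h2, mul_zpow]
        have h4 : ((n p.val).natAbs : ℤ) = - n p.val := by omega
        rw [h4, _root_.zpow_neg]
        have h5 : y' ^ n p.val ≠ 0 := zpow_ne_zero _ hy'0
        field_simp
  choose z hz1 hz2 using hex
  obtain ⟨m', hm'⟩ : ∃ m' : ℤ, m' = m + ∑ p : n.support, if 0 ≤ n p then 0 else n p := ⟨_, rfl⟩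
  have hfin := keyH' (A := A) hPEX hPTH L hL θ hθ hPHOL
    (S := Σ p : n.support, Fin (n p).natAbs)
    (fun s => if 0 ≤ n s.1 then s.1.val else cc s.1.val) m' ?_ ?_ ?_ h hh
    (fun s => z s.1) (fun s => hz1 s.1)
  · rw [Fintype.prod_sigma] at hfin
    simp only [Finset.prod_const, Finset.card_univ, Fintype.card_fin] at hfin
    rw [hm', zpow_add₀ hν0] at hfin
    have h1 : (n.prod fun p k => y p ^ k) = ∏ p : n.support, y p ^ n p := by
      rw [Finsupp.prod]
      exact (Finset.prod_coe_sort n.support fun p => y p ^ n p).symm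
    have h2 : ∀ s : Finset n.support, (h : Pt g).2 ^ (∑ p ∈ s, if 0 ≤ n p then 0 else n p) =
        ∏ p ∈ s, (h : Pt g).2 ^ (if 0 ≤ n p then 0 else n p) := by
      intro s
      induction s using Finset.induction_on with
      | empty => simp
      | insert a s ha ih =>
        rw [Finset.sum_insert ha, Finset.prod_insert ha, zpow_add₀ hν0, ih]
    rw [h1, Finset.prod_congr rfl fun p _ => hz2 p, Finset.prod_mul_distrib, ← h2, ← hfin]
    ring
  · intro s
    have hp := hncm s.1.val s.1.2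
    show A.IsCM (if 0 ≤ n s.1 then s.1.val else cc s.1.val)
    split_ifs
    · exact hp
    · exact (hPHOL g A _ hp).2.1
  · intro s
    have hp := hncm s.1.val s.1.2
    refine hLp _ ?_
    show A.IsCM (if 0 ≤ n s.1 then s.1.val else cc s.1.val)
    split_ifs
    · exact hp
    · exact (hPHOL g A _ hp).2.1
  · intro σ
    have h1 := hhw σ
    rw [AbVar.hw, Finsupp.sum] at h1
    rw [← Finset.sum_coe_sort] at h1
    rw [Fintype.sum_sigma]
    simp only [Finset.sum_const, Finset.card_univ, Fintype.card_fin, nsmul_eq_mul]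
    have h2 : ∀ p : n.support,
        ((n p).natAbs : ℤ) * (if A.Hol ((if 0 ≤ n p then p.val else cc p.val).map σ) then 1 else 0) =
        (if A.Hol (p.val.map σ) then n p else 0) - (if 0 ≤ n p then 0 else n p) := by
      intro p
      have hp := hncm p.val p.2
      by_cases h0 : 0 ≤ n p.val
      · simp only [h0, if_true]
        split_ifs <;> omega
      · simp only [h0, if_false]
        have h3 : A.Hol ((cc p.val).map σ) ↔ ¬ A.Hol (p.val.map σ) := by
          rw [(hRos g A _ hp.1).2 σ]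
          exact (hPHOL g A _ ((hPHOL g A _ hp).1 σ)).2.2.1
        by_cases h4 : A.Hol (p.val.map σ)
        · have h5 : ¬ A.Hol ((cc p.val).map σ) := fun h => h3.1 h h4
          simp only [h4, h5, if_true, if_false]
          omega
        · have h5 : A.Hol ((cc p.val).map σ) := h3.2 h4
          simp only [h4, h5, if_true, if_false]
          omega
    rw [Finset.sum_congr rfl fun p _ => h2 p, Finset.sum_sub_distrib, hm']
    linarith

/-- The torsor of Hodge classes is the smallest subtorsor containing the comparison isomorphism. -/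
def Stmt_HodgeTorsor : Prop :=
  ∀ (g : ℕ) (A : AbVar g), A.Rank2CM →
    IsLeast {S : Set (Pt g) | IsSubtorsor S ∧ ZX A ⊆ S} (Omega A)

theorem torsor_proof (hMain : MainStatement4) (hLFLD : Stmt_LFLD) (hPHOL : Stmt_PHOL)
    (hPEX : Stmt_PEX) (hPTH : Stmt_PTH) (hTBLC : Stmt_TBLC) (hRos : DRB.Stmt_Ros) :
    Stmt_HodgeTorsor := by
  intro g A hA
  refine least A fun h hh => ?_
  refine (hMain g A hA _ _).mpr ⟨GH_comm hh, GH_sim hh, ?_⟩
  exact GH_rels hLFLD hPHOL hPEX hPTH hTBLC hRos hh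

end

end Pool.Agent.ABH
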