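import Pool.Agent.SPG.Assembly4
import Pool.Agent.ABH.Main

/-! ABH: assembly. -/

namespace Pool.Agent.ABH

open Pool.Agent.SPG

theorem hodgeTorsor : Stmt_HodgeTorsor :=
  torsor_proof main4C lfldC pholC pexC pthC tblcC DRB.rosC

end Pool.Agent.ABH
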