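import Pool.Agent.SPH.Assembly6
import Pool.Agent.ABH.Final
import Pool.Agent.ABH.Alg

/-! ABH: assembly. -/

namespace Pool.Agent.ABH

open Pool.Agent.DRB Pool.Agent.ABT

theorem hodgeTorsorT : ∀ (g : ℕ) (A : AbVar g), A.Rank2CM →
    IsLeast {S : Set (Pt g) | IsSubtorsor S ∧ ZX A ⊆ S} (HodgeTorsor A) := by
  intro g A hA
  rw [torsor_eq SPH.main6C A hA]
  exact hodgeTorsor g A hA

end Pool.Agent.ABH
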