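import Pool.Agent.ABH.Defs
import Pool.Agent.ABT.Main

/-! ABH: the torsor of Hodge classes is a subtorsor. -/

open scoped BigOperators
open Matrix

namespace Pool.Agent.ABH

open Pool.Agent.DRB Pool.Agent.ABT

noncomputable section

variable {g : ℕ}

/-! ### contraction of tensors -/

/-- pull back of a multilinear form -/
def pb {ι ι' : Type} [Fintype ι'] {n : ℕ} (M : Matrix ι' ι ℂ) (α : (Fin n → ι') → ℂ) : (Fin n → ι) → ℂ :=
  fun J => ∑ I, α I * ∏ l, M (I l) (J l)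

theorem pb_add {ι ι' : Type} [Fintype ι'] {n : ℕ} (M : Matrix ι' ι ℂ) (α β : (Fin n → ι') → ℂ) :
    pb M (α + β) = pb M α + pb M β := by
  funext J
  simp [pb, add_mul, Finset.sum_add_distrib]

theorem pb_smul {ι ι' : Type} [Fintype ι'] {n : ℕ} (M : Matrix ι' ι ℂ) (c : ℂ) (α : (Fin n → ι') → ℂ) :
    pb M (c • α) = c • pb M α := by
  funext J
  simp [pb, mul_assoc, Finset.mul_sum]

theorem pb_smul_left {ι ι' : Type} [Fintype ι'] {n : ℕ} (M : Matrix ι' ι ℂ) (c : ℂ)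
    (α : (Fin n → ι') → ℂ) : pb (c • M) α = c ^ n • pb M α := by
  funext J
  simp only [pb, Matrix.smul_apply, smul_eq_mul, Finset.prod_mul_distrib, Finset.prod_const,
    Finset.card_univ, Fintype.card_fin, Pi.smul_apply, Finset.mul_sum]
  exact Finset.sum_congr rfl fun I _ => by ring

theorem pb_one {ι : Type} [Fintype ι] [DecidableEq ι] {n : ℕ} (α : (Fin n → ι) → ℂ) :
    pb (1 : Matrix ι ι ℂ) α = α := by
  funext J
  rw [pb, Finset.sum_eq_single J]
  · simp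
  · intro I _ hI
    obtain ⟨l, hl⟩ : ∃ l, I l ≠ J l := by
      by_contra h
      push Not at h
      exact hI (funext h)
    have h1 : (1 : Matrix ι ι ℂ) (I l) (J l) = 0 := Matrix.one_apply_ne hl
    have h2 : ∏ l, (1 : Matrix ι ι ℂ) (I l) (J l) = 0 := Finset.prod_eq_zero (Finset.mem_univ l) h1
    exact mul_eq_zero_of_right _ h2
  · intro h
    exact absurd (Finset.mem_univ _) h

theorem pb_mul {ι ι' ι'' : Type} [Fintype ι'] [Fintype ι''] {n : ℕ}
    (M : Matrix ι'' ι' ℂ) (N : Matrix ι' ι ℂ) (α : (Fin n → ι'') → ℂ) :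
    pb (M * N) α = pb N (pb M α) := by
  classical
  funext J
  simp only [pb, Finset.sum_mul]
  rw [Finset.sum_comm]
  refine Finset.sum_congr rfl fun I _ => ?_
  have h : ∏ l, (M * N) (I l) (J l) = ∑ K : Fin n → ι', ∏ l, (M (I l) (K l) * N (K l) (J l)) := by
    simp only [Matrix.mul_apply]
    rw [Finset.prod_univ_sum, Fintype.piFinset_univ]
  rw [h, Finset.mul_sum]
  refine Finset.sum_congr rfl fun K _ => ?_
  rw [Finset.prod_mul_distrib, mul_assoc]

/-- the complex tensor of a rational tensor -/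
def cq {κ : Type} (β : κ → ℚ) : κ → ℂ := fun J => (β J : ℂ)

/-- rewriting of the defining conditions -/
theorem isHodge_rat {A : AbVar g} {k : ℕ} {α : (Fin (2 * k) → Idx g) → ℂ}
    {β : (Fin (2 * k) → Idx g) → ℚ} (h : IsHodgeClass A k α β) :
    pb A.per α = (2 * Real.pi * Complex.I) ^ k • cq β := funext fun J => h.rat J

/-- the group fixing all Hodge classes -/
def GH (A : AbVar g) : Subgroup (Pt g)ˣ where
  carrier := {h | ∀ (k : ℕ) (α : (Fin (2 * k) → Idx g) → ℂ) (β : (Fin (2 * k) → Idx g) → ℚ),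
    IsHodgeClass A k α β → pb (h : Pt g).1 (cq β) = (h : Pt g).2 ^ k • cq β}
  one_mem' := by
    intro k α β _
    have h1 : ((1 : (Pt g)ˣ) : Pt g).1 = 1 := rfl
    have h2 : ((1 : (Pt g)ˣ) : Pt g).2 = 1 := rfl
    rw [h1, h2, pb_one, one_pow, one_smul]
  mul_mem' := by
    intro x y hx hy k α β h
    have h1 : ((x * y : (Pt g)ˣ) : Pt g).1 = (x : Pt g).1 * (y : Pt g).1 := rfl
    have h2 : ((x * y : (Pt g)ˣ) : Pt g).2 = (x : Pt g).2 * (y : Pt g).2 := rfl
    rw [h1, h2, pb_mul, hx k α β h, pb_smul, hy k α β h, smul_smul, mul_pow]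
  inv_mem' := by
    intro x hx k α β h
    have h1 : (x : Pt g).1 * ((x⁻¹ : (Pt g)ˣ) : Pt g).1 = 1 := congrArg Prod.fst x.mul_inv
    have h3 : ((x⁻¹ : (Pt g)ˣ) : Pt g).2 * (x : Pt g).2 = 1 := congrArg Prod.snd x.inv_mul
    have h4 := hx k α β h
    have h5 : cq β = (x : Pt g).2 ^ k • pb ((x⁻¹ : (Pt g)ˣ) : Pt g).1 (cq β) := by
      rw [← pb_smul, ← h4, ← pb_mul, h1, pb_one]
    have h6 : ((x⁻¹ : (Pt g)ˣ) : Pt g).2 ^ k • cq β =
        (((x⁻¹ : (Pt g)ˣ) : Pt g).2 ^ k * (x : Pt g).2 ^ k) •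
          pb ((x⁻¹ : (Pt g)ˣ) : Pt g).1 (cq β) := by
      rw [← smul_smul, ← h5]
    rw [h6, ← mul_pow, h3, one_pow, one_smul]

theorem mem_GH {A : AbVar g} {h : (Pt g)ˣ} : h ∈ GH A ↔
    ∀ (k : ℕ) (α : (Fin (2 * k) → Idx g) → ℂ) (β : (Fin (2 * k) → Idx g) → ℚ),
    IsHodgeClass A k α β → pb (h : Pt g).1 (cq β) = (h : Pt g).2 ^ k • cq β := Iff.rfl

theorem comparison_mem (A : AbVar g) : comparison A ∈ Omega A :=
  ⟨comparison_unit A, fun _ _ _ h J => h.rat J⟩

/-- the points of `Omega` are the translates of the comparison point -/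
theorem Omega_iff (A : AbVar g) (f : Pt g) :
    f ∈ Omega A ↔ ∃ h ∈ GH A, f = comparison A * (h : Pt g) := by
  have hpi : (2 * Real.pi * Complex.I : ℂ) ≠ 0 := by simp [Real.pi_ne_zero, Complex.I_ne_zero]
  obtain ⟨c, hc⟩ := comparison_unit A
  have hc1 : (c : Pt g).1 = A.per := congrArg Prod.fst hc
  have hc2 : (c : Pt g).2 = 2 * Real.pi * Complex.I := congrArg Prod.snd hc
  rw [← hc]
  constructor
  · rintro ⟨⟨f', rfl⟩, h1⟩
    have hf : (f' : Pt g) = (c : Pt g) * ((c⁻¹ * f' : (Pt g)ˣ) : Pt g) := by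
      rw [← Units.val_mul, mul_inv_cancel_left]
    refine ⟨c⁻¹ * f', ?_, hf⟩
    intro k α β h
    have hf1 : (f' : Pt g).1 = A.per * ((c⁻¹ * f' : (Pt g)ˣ) : Pt g).1 := by
      rw [← hc1]
      exact congrArg Prod.fst hf
    have hf2 : (f' : Pt g).2 = (2 * Real.pi * Complex.I) * ((c⁻¹ * f' : (Pt g)ˣ) : Pt g).2 := by
      rw [← hc2]
      exact congrArg Prod.snd hf
    have h2 : pb (f' : Pt g).1 α = (f' : Pt g).2 ^ k • cq β := funext fun J => h1 k α β h J
    have h3 : pb ((c⁻¹ * f' : (Pt g)ˣ) : Pt g).1 (pb A.per α) =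
        (2 * Real.pi * Complex.I) ^ k • pb ((c⁻¹ * f' : (Pt g)ˣ) : Pt g).1 (cq β) := by
      rw [isHodge_rat h, pb_smul]
    rw [hf1, hf2, pb_mul, h3, mul_pow _ (((c⁻¹ * f' : (Pt g)ˣ) : Pt g).2) k, ← smul_smul] at h2
    exact smul_right_injective _ (pow_ne_zero k hpi) h2
  · rintro ⟨h, hh, rfl⟩
    refine ⟨(c * h).isUnit, ?_⟩
    intro k α β hk
    have h2 : pb ((c : Pt g) * (h : Pt g)).1 α = ((c : Pt g) * (h : Pt g)).2 ^ k • cq β := by
      rw [Prod.fst_mul, Prod.snd_mul, hc1, hc2, pb_mul, isHodge_rat hk, pb_smul, hh k α β hk,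
        mul_pow _ ((h : Pt g).2) k, smul_smul]
    exact fun J => congrFun h2 J

/-! ### polynomials -/

section Poly

variable {K : Type} [CommRing K] [Algebra K ℂ]

/-- the polynomial equations of `Omega` -/
def PH {n : ℕ} (a b : (Fin n → Idx g) → K) (k : ℕ) (J : Fin n → Idx g) : MvPolynomial (Crd g) K :=
  ∑ I, MvPolynomial.C (a I) * ∏ l, MvPolynomial.X (some (I l, J l)) -
    MvPolynomial.X none ^ k * MvPolynomial.C (b J)

theorem PH_aeval (f : Pt g) {n : ℕ} (a b : (Fin n → Idx g) → K) (k : ℕ) (J : Fin n → Idx g) :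
    MvPolynomial.aeval (crd f) (PH a b k J) =
      pb f.1 (fun I => algebraMap K ℂ (a I)) J - f.2 ^ k * algebraMap K ℂ (b J) := by
  simp only [PH, pb, map_sub, map_sum, map_mul, map_prod, MvPolynomial.aeval_C,
    MvPolynomial.aeval_X, map_pow]
  rfl

end Poly

theorem GH_isQ (A : AbVar g) : IsQGroup (GH A) := by
  refine ⟨{P | ∃ (k : ℕ) (α : (Fin (2 * k) → Idx g) → ℂ) (β : (Fin (2 * k) → Idx g) → ℚ)
    (J : Fin (2 * k) → Idx g), IsHodgeClass A k α β ∧ P = PH β β k J}, fun h => ?_⟩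
  have key : ∀ (k : ℕ) (β : (Fin (2 * k) → Idx g) → ℚ) (J : Fin (2 * k) → Idx g),
      MvPolynomial.aeval (crd (h : Pt g)) (PH β β k J) =
        pb (h : Pt g).1 (cq β) J - (h : Pt g).2 ^ k * cq β J := by
    intro k β J
    rw [PH_aeval]
    rfl
  constructor
  · rintro h1 P ⟨k, α, β, J, hk, rfl⟩
    rw [key, h1 k α β hk, Pi.smul_apply, smul_eq_mul, sub_self]
  · intro hT k α β hk
    funext J
    have h1 := hT _ ⟨k, α, β, J, hk, rfl⟩
    rw [key, sub_eq_zero] at h1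
    exact h1

theorem Omega_closed (A : AbVar g) : IsClosedQbar (Omega A) := by
  let mp : MvPolynomial (Crd g) (algebraicClosure ℚ ℂ) → MvPolynomial (Crd g) ℂ :=
    MvPolynomial.map (algebraMap (algebraicClosure ℚ ℂ) ℂ)
  have hmp : ∀ (f : Pt g) P, MvPolynomial.eval (crd f) (mp P) = MvPolynomial.aeval (crd f) P := by
    intro f P
    simp only [mp]
    rw [MvPolynomial.eval_map, MvPolynomial.aeval_def]
  refine ⟨{P | ∃ (k : ℕ) (α : (Fin (2 * k) → Idx g) → ℂ) (β : (Fin (2 * k) → Idx g) → ℚ)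
    (J : Fin (2 * k) → Idx g) (a : (Fin (2 * k) → Idx g) → algebraicClosure ℚ ℂ),
    IsHodgeClass A k α β ∧ (∀ I, (a I : ℂ) = α I) ∧
      P = mp (PH a (fun J => algebraMap ℚ (algebraicClosure ℚ ℂ) (β J)) k J)}, ?_, ?_⟩
  · have key : ∀ P : MvPolynomial (Crd g) (algebraicClosure ℚ ℂ), AlgPoly (mp P) := by
      intro P m
      simp only [mp]
      rw [MvPolynomial.coeff_map]
      exact mem_algebraicClosure_iff.mp (Subtype.property _)
    rintro P ⟨k, α, β, J, a, -, -, rfl⟩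
    exact key _
  · have key : ∀ (f : Pt g) (k : ℕ) (α : (Fin (2 * k) → Idx g) → ℂ)
        (β : (Fin (2 * k) → Idx g) → ℚ) (J : Fin (2 * k) → Idx g)
        (a : (Fin (2 * k) → Idx g) → algebraicClosure ℚ ℂ), (∀ I, (a I : ℂ) = α I) →
        MvPolynomial.eval (crd f) (mp (PH a (fun J => algebraMap ℚ (algebraicClosure ℚ ℂ) (β J)) k J)) =
          pb f.1 α J - f.2 ^ k * β J := by
      intro f k α β J a ha
      rw [hmp, PH_aeval]
      have h1 : (fun I => algebraMap (algebraicClosure ℚ ℂ) ℂ (a I)) = α := funext ha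
      rw [h1, ← IsScalarTower.algebraMap_apply]
      rfl
    ext f
    constructor
    · rintro ⟨h0, h1⟩
      refine ⟨h0, ?_⟩
      rintro P ⟨k, α, β, J, a, hk, ha, rfl⟩
      rw [key f k α β J a ha, sub_eq_zero]
      exact h1 k α β hk J
    · rintro ⟨h0, hT⟩
      refine ⟨h0, fun k α β hk J => ?_⟩
      have h1 := hT _ ⟨k, α, β, J, fun I => ⟨α I, mem_algebraicClosure_iff.mpr (hk.alg I)⟩, hk,
        fun I => rfl, rfl⟩
      rw [key f k α β J _ (fun I => rfl), sub_eq_zero] at h1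
      exact h1

theorem Omega_sub (A : AbVar g) : IsSubtorsor (Omega A) := by
  obtain ⟨c, hc⟩ := comparison_unit A
  refine ⟨Omega_closed A, GH A, GH_isQ A, c, ?_⟩
  ext f
  rw [Omega_iff, hc]
  rfl

/-- Reduction to the comparison of the groups. -/
theorem least (A : AbVar g)
    (hG : ∀ h ∈ GH A, InGdRB A (MulEquiv.prodUnits h).1 (MulEquiv.prodUnits h).2) :
    IsLeast {S : Set (Pt g) | IsSubtorsor S ∧ ZX A ⊆ S} (Omega A) := by
  refine ⟨⟨Omega_sub A, ZX_sub A (Omega_closed A) (comparison_mem A)⟩, ?_⟩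
  rintro S ⟨hS, hZ⟩ f hf
  have hcS : comparison A ∈ S := hZ ⟨comparison_unit A, fun _ _ h => h⟩
  obtain ⟨h, hh, rfl⟩ := (Omega_iff A f).mp hf
  exact core A hS hcS _ _ (hG h hh)

end

end Pool.Agent.ABH
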