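import Pool.Agent.ABH.Hodge

/-! ABH: compatibility with the Hodge classes implies the relations between the CM characters. -/

open scoped BigOperators
open Matrix

namespace Pool.Agent.ABH

open Pool.Agent.DRB Pool.Agent.ABT
open Pool.Agent.SPF (Alg)
open Pool.Agent.SPG
open Pool.Agent.SPG.REVH_ (alg_of_mem alg_prod alg_of_fixed map_mulVec')

noncomputable section

variable {g : ℕ}

theorem tpi_eq : (tpi : ℂ) = 2 * Real.pi * Complex.I := rfl

theorem tpi_ne : (tpi : ℂ) ≠ 0 := by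
  rw [tpi_eq]
  simp [Real.pi_ne_zero, Complex.I_ne_zero]

/-- the map from Betti tensors to de Rham tensors -/
def dR (A : AbVar g) {n : ℕ} (k : ℕ) (v : (Fin n → Idx g) → ℂ) : (Fin n → Idx g) → ℂ :=
  tpi ^ k • pb A.per⁻¹ v

theorem dR_add (A : AbVar g) {n : ℕ} (k : ℕ) (v w : (Fin n → Idx g) → ℂ) :
    dR A k (v + w) = dR A k v + dR A k w := by
  simp [dR, pb_add]

theorem dR_smul (A : AbVar g) {n : ℕ} (k : ℕ) (c : ℂ) (v : (Fin n → Idx g) → ℂ) :
    dR A k (c • v) = c • dR A k v := by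
  rw [dR, dR, pb_smul, smul_comm]

theorem per_mul_inv (A : AbVar g) : A.per * A.per⁻¹ = 1 := Matrix.mul_nonsing_inv _ A.nondeg

theorem per_inv_mul (A : AbVar g) : A.per⁻¹ * A.per = 1 := Matrix.nonsing_inv_mul _ A.nondeg

theorem riem_per_inv (A : AbVar g) : A.riem * A.per⁻¹ = tpi⁻¹ • (A.perᵀ * Jm g) := by
  have h := (leg_proof g A).2.1
  have h1 : A.perᵀ * Jm g = tpi • (A.riem * A.per⁻¹) := by
    calc A.perᵀ * Jm g = A.perᵀ * Jm g * (A.per * A.per⁻¹) := by rw [per_mul_inv, Matrix.mul_one]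
      _ = (A.perᵀ * Jm g * A.per) * A.per⁻¹ := by simp only [Matrix.mul_assoc]
      _ = tpi • (A.riem * A.per⁻¹) := by rw [h, Matrix.smul_mul]
  rw [h1, smul_smul, inv_mul_cancel₀ tpi_ne, one_smul]

/-- the Hodge filtration condition -/
def Fil (k : ℕ) {n : ℕ} : Submodule ℂ ((Fin n → Idx g) → ℂ) where
  carrier := {α | ∀ I, α I ≠ 0 → k ≤ (Finset.univ.filter fun l => (I l).isLeft = true).card}
  zero_mem' := fun I hI => absurd rfl hI
  add_mem' := by
    intro α β hα hβ I hI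
    by_cases h : α I = 0
    · refine hβ I fun h1 => hI ?_
      rw [Pi.add_apply, h, h1, add_zero]
    · exact hα I h
  smul_mem' := by
    intro c α hα I hI
    refine hα I fun h => hI ?_
    rw [Pi.smul_apply, h, smul_zero]

theorem vecMul_jm_inr (a : Idx g → ℂ) (i : Fin g) : (a ᵥ* Jm g) (Sum.inr i) = a (Sum.inl i) := by
  rw [Matrix.vecMul, dotProduct, Fintype.sum_sum_type]
  have h1 : ∀ l : Fin g, a (Sum.inr l) * Jm g (Sum.inr l) (Sum.inr i) = 0 := fun l => by
    rw [jm_rr, mul_zero]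
  rw [Finset.sum_eq_zero fun l _ => h1 l, add_zero, Finset.sum_eq_single i]
  · simp [Jm]
  · intro l _ hl
    simp [Jm, Matrix.one_apply_ne hl]
  · intro h
    exact absurd (Finset.mem_univ _) h

/-- The main step: families of CM components with repetitions. -/
theorem keyH {A : AbVar g} (hPEX : Stmt_PEX) (hPTH : Stmt_PTH)
    (L : IntermediateField ℚ ℂ) (hL : CMSub L) (θ : Set (ℂ ≃ₐ[ℚ] ℂ) → (ℂ ≃ₐ[ℚ] ℂ) → ℂ)
    (hθ : Tab L θ) (hPHOL : Stmt_PHOL) {k : ℕ} (q : Fin (2 * k) → Matrix (Idx g) (Idx g) ℂ)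
    (hq : ∀ s, A.IsCM (q s)) (hqL : ∀ s i j, q s i j ∈ L)
    (hH : ∀ σ : ℂ ≃ₐ[ℚ] ℂ, (open Classical in ∑ s, if A.Hol ((q s).map σ) then (1 : ℤ) else 0) = k)
    (h : (Pt g)ˣ) (hh : h ∈ GH A) (z : Fin (2 * k) → ℂ)
    (hz : ∀ s, (h : Pt g).1 * q s = z s • q s) : ∏ s, z s = (h : Pt g).2 ^ k := by
  classical
  have hcol : ∀ s, ∃ j, (q s).col j ≠ 0 := by
    intro s
    by_contra hcon
    push Not at hcon
    apply (hq s).1.2.1
    ext i j
    have := congrFun (hcon j) i
    simpa using this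
  choose jj hjj using hcol
  obtain ⟨w, hw⟩ : ∃ w : Fin (2 * k) → Idx g → ℂ, w = fun s => (q s).col (jj s) := ⟨_, rfl⟩
  have hw0 : ∀ s, w s ≠ 0 := fun s => by rw [hw]; exact hjj s
  have hwL : ∀ s i, w s i ∈ L := fun s i => by rw [hw]; exact hqL s i _
  have hidem : ∀ s, q s * q s = q s := fun s => (hq s).1.1.2.1
  have hqw : ∀ s, q s *ᵥ w s = w s := by
    intro s
    rw [hw]
    funext i
    have := congrFun (congrFun (hidem s) i) (jj s)
    simpa [Matrix.mulVec, dotProduct, Matrix.mul_apply, Matrix.col] using this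
  have hxw : ∀ s, (h : Pt g).1 *ᵥ w s = z s • w s := by
    intro s
    rw [← hqw s, Matrix.mulVec_mulVec, hz s, Matrix.smul_mulVec]
  have halgL : ∀ z ∈ L, Alg z := fun z hz => alg_of_mem hL.fin hz
  -- periods
  have hper : ∀ (σ : ℂ ≃ₐ[ℚ] ℂ) (s : Fin (2 * k)), ∃ (P : ℂ) (a : Idx g → ℂ), (∀ j, Alg (a j)) ∧
      Alg (P / θ (Psi A (q s)) σ) ∧ (A.per *ᵥ fun j => σ (w s j)) = P • a ∧
      (¬ A.Hol ((q s).map σ) → ∀ i, a (Sum.inl i) = 0) := by
    intro σ s
    have hcm : A.IsCM ((q s).map σ) := (hPHOL g A (q s) (hq s)).1 σ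
    have hv1 : (fun j => σ (w s j)) ≠ 0 := by
      intro h
      apply hw0 s
      funext j
      have := congrFun h j
      simpa using this
    have hv2 : (q s).map σ *ᵥ (fun j => σ (w s j)) = fun j => σ (w s j) := by
      rw [map_mulVec', hqw]
    have hv3 : ∀ j, Alg (σ (w s j)) := fun j => halgL _ (hL.gal σ _ (hwL s j))
    obtain ⟨P, a, hP, ha, hPa⟩ := (hPEX g A _ hcm).1 _ hv3 hv1 hv2
    refine ⟨P, a, ha, ?_, hPa, ?_⟩
    · exact (hPTH g A L θ hL hθ (q s) (hq s) (hqL s)).2 σ P ⟨hP, _, a, hv3, ha, hv1, hv2, hPa⟩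
    · intro hhol i
      have h1 := (hPHOL g A _ hcm).2.2.2.1 _ hv1 hv2
      rw [hPa] at h1
      have h2 : pr (P • a) = 0 := by
        by_contra hne
        exact hhol (h1.mp hne)
      have h3 := congrFun h2 i
      have h4 : P * a (Sum.inl i) = 0 := h3
      exact (mul_eq_zero.1 h4).resolve_left hP
  have hTY : ∀ s, LType L (Psi A (q s)) := fun s =>
    (hPTH g A L θ hL hθ (q s) (hq s) (hqL s)).1
  obtain ⟨R, hR⟩ := riem_rat A
  have hRσ : ∀ σ : ℂ ≃ₐ[ℚ] ℂ, A.riem.map σ = A.riem := by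
    intro σ
    rw [← hR]
    ext i j
    simp [cm]
  have hRalg : ∀ i j, Alg (A.riem i j) := by
    intro i j
    rw [← hR]
    exact isAlgebraic_algebraMap (R := ℚ) (A := ℂ) (R i j)
  -- the vectors
  obtain ⟨T, hT⟩ : ∃ T : (ℂ ≃ₐ[ℚ] ℂ) → ((Fin (2 * k) → Idx g) → ℂ),
    T = fun σ J => ∏ s, ((fun j => σ (w s j)) ᵥ* A.riem) (J s) := ⟨_, rfl⟩
  have hTalg : ∀ σ J, Alg (T σ J) := by
    intro σ J
    rw [hT]
    refine alg_prod _ _ fun s _ => ?_
    rw [Matrix.vecMul, dotProduct]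
    exact AbVar.isAlgebraic_sum _ _ fun i _ => (halgL _ (hL.gal σ _ (hwL s i))).mul (hRalg _ _)
  have hTd : ∀ σ : ℂ ≃ₐ[ℚ] ℂ, ∃ (P : Fin (2 * k) → ℂ) (a : Fin (2 * k) → Idx g → ℂ), (∀ s j, Alg (a s j)) ∧
      (∀ s, ¬ A.Hol ((q s).map σ) → ∀ i, a s (Sum.inl i) = 0) ∧
      Alg (tpi ^ k * (tpi⁻¹ ^ (2 * k) * ∏ s, P s)) ∧
      dR A k (T σ) = (tpi ^ k * (tpi⁻¹ ^ (2 * k) * ∏ s, P s)) •
        fun I => ∏ s, (a s ᵥ* Jm g) (I s) := by
    intro σ
    choose P a ha hP hPa hF using hper σ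
    refine ⟨P, a, ha, hF, ?_, ?_⟩
    · have h2 := hθ.add (Fin (2 * k)) (fun s => Psi A (q s)) (fun _ => 1) k hTY (fun σ => by
        rw [← hH σ]
        rfl) σ
      have h3 : tpi ^ k * (tpi⁻¹ ^ (2 * k) * ∏ s, P s) =
          (∏ s, P s / θ (Psi A (q s)) σ) * ((∏ s, θ (Psi A (q s)) σ ^ (1 : ℤ)) / tpi ^ (k : ℤ)) := by
        have h4 : ∏ s, θ (Psi A (q s)) σ ≠ 0 :=
          Finset.prod_ne_zero_iff.2 fun s _ => hθ.nz _ (hTY s) σ
        have h5 : (tpi : ℂ) ^ k ≠ 0 := pow_ne_zero k tpi_ne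
        have h55 : (tpi : ℂ)⁻¹ ^ (2 * k) = (tpi ^ k)⁻¹ * (tpi ^ k)⁻¹ := by
          rw [two_mul, pow_add, inv_pow]
        simp only [zpow_one, zpow_natCast]
        rw [Finset.prod_div_distrib, h55]
        field_simp
      rw [h3]
      exact (alg_prod _ _ fun s _ => hP s).mul h2
    · rw [dR]
      have h6 : T σ = fun J => ∏ s, ((fun j => σ (w s j)) ᵥ* A.riem) (J s) := by rw [hT]
      rw [h6, pb_pure]
      have h7 : ∀ s, ((fun j => σ (w s j)) ᵥ* A.riem) ᵥ* A.per⁻¹ =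
          (tpi⁻¹ * P s) • (a s ᵥ* Jm g) := by
        intro s
        rw [Matrix.vecMul_vecMul, riem_per_inv, Matrix.vecMul_smul, ← Matrix.vecMul_vecMul,
          Matrix.vecMul_transpose, hPa s, Matrix.smul_vecMul, smul_smul]
      simp only [h7]
      funext I
      simp only [Pi.smul_apply, smul_eq_mul, Finset.prod_mul_distrib, Finset.prod_const,
        Finset.card_univ, Fintype.card_fin]
      ring
  have hFalg : ∀ σ I, Alg (dR A k (T σ) I) := by
    intro σ I
    obtain ⟨P, a, ha, -, hP, hd⟩ := hTd σ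
    rw [hd]
    refine hP.mul (alg_prod _ _ fun s _ => ?_)
    rw [Matrix.vecMul, dotProduct]
    exact AbVar.isAlgebraic_sum _ _ fun i _ => (ha s i).mul (jm_isAlg _ _)
  have hFil : ∀ σ, dR A k (T σ) ∈ (Fil k : Submodule ℂ ((Fin (2 * k) → Idx g) → ℂ)) := by
    intro σ
    obtain ⟨P, a, -, hF, -, hd⟩ := hTd σ
    rw [hd]
    refine Submodule.smul_mem _ _ ?_
    intro I hI
    have h1 : ∀ s, (a s ᵥ* Jm g) (I s) ≠ 0 := fun s => (Finset.prod_ne_zero_iff.1 hI) s (Finset.mem_univ s)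
    have h2 : (Finset.univ.filter fun s => ¬ A.Hol ((q s).map σ)) ⊆
        Finset.univ.filter fun l => (I l).isLeft = true := by
      intro s hs
      rw [Finset.mem_filter] at hs ⊢
      refine ⟨hs.1, ?_⟩
      rcases h3 : I s with i | i
      · rfl
      · exfalso
        apply h1 s
        rw [h3, vecMul_jm_inr, hF s hs.2]
    have h3 : (Finset.univ.filter fun s => A.Hol ((q s).map σ)).card = k := by
      have h4 := hH σ
      rw [Finset.sum_boole] at h4
      exact_mod_cast h4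
    have h4 := Finset.card_filter_add_card_filter_not (s := (Finset.univ : Finset (Fin (2 * k))))
      (fun s => A.Hol ((q s).map σ))
    rw [h3, Finset.card_univ, Fintype.card_fin] at h4
    have h5 := Finset.card_le_card h2
    omega
  obtain ⟨W, hWdef⟩ : ∃ W : Submodule ℂ ((Fin (2 * k) → Idx g) → ℂ),
    W = Submodule.span ℂ (Set.range T) := ⟨_, rfl⟩
  -- rationality
  have hWrat : RatSpan W := by
    refine descq_proof aut1_proof _ W ?_
    intro σ v hv
    rw [hWdef] at hv ⊢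
    induction hv using Submodule.span_induction with
    | mem y hy =>
      obtain ⟨σ', rfl⟩ := hy
      refine Submodule.subset_span ⟨σ'.trans σ, ?_⟩
      rw [hT]
      funext J
      simp only [map_prod, AlgEquiv.trans_apply]
      refine Finset.prod_congr rfl fun s _ => ?_
      have h1 : ∀ i, σ (A.riem i (J s)) = A.riem i (J s) := fun i => by
        have := congrFun (congrFun (hRσ σ) i) (J s)
        exact this
      simp only [Matrix.vecMul, dotProduct, map_sum, map_mul, h1]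
    | zero =>
      have : (fun J => σ ((0 : (Fin (2 * k) → Idx g) → ℂ) J)) = 0 := by
        funext J; simp
      rw [this]
      exact Submodule.zero_mem _
    | add y z _ _ hy hz =>
      have : (fun k => σ ((y + z) k)) = (fun k => σ (y k)) + fun k => σ (z k) := by
        funext k; simp
      rw [this]
      exact Submodule.add_mem _ hy hz
    | smul c y _ hy =>
      have : (fun k => σ ((c • y) k)) = σ c • fun k => σ (y k) := by
        funext k; simp
      rw [this]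
      exact Submodule.smul_mem _ _ hy
  have hWFil : ∀ v ∈ W, dR A k v ∈ (Fil k : Submodule ℂ ((Fin (2 * k) → Idx g) → ℂ)) := by
    intro v hv
    rw [hWdef] at hv
    induction hv using Submodule.span_induction with
    | mem y hy =>
      obtain ⟨σ', rfl⟩ := hy
      exact hFil σ'
    | zero =>
      have : dR A k (0 : (Fin (2 * k) → Idx g) → ℂ) = 0 := by
        rw [dR, pb_zero, smul_zero]
      rw [this]
      exact Submodule.zero_mem _
    | add y z _ _ hy hz =>
      rw [dR_add]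
      exact Submodule.add_mem _ hy hz
    | smul c y _ hy =>
      rw [dR_smul]
      exact Submodule.smul_mem _ _ hy
  -- conjugates of the comparison isomorphism agree on `W`
  have hconj : ∀ (τ : ℂ ≃ₐ[ℚ] ℂ) (v : (Fin (2 * k) → Idx g) → ℂ),
      (fun I => τ (dR A k v I)) = (τ tpi) ^ k • pb (A.per⁻¹.map τ) (fun I => τ (v I)) := by
    intro τ v
    rw [← map_pb]
    funext I
    simp [dR]
  have hWτ : ∀ τ ∈ GalA, ∀ v ∈ W, (τ tpi) ^ k • pb (A.per⁻¹.map τ) v = dR A k v := by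
    intro τ hτ v hv
    rw [hWdef] at hv
    induction hv using Submodule.span_induction with
    | mem y hy =>
      obtain ⟨σ', rfl⟩ := hy
      have h1 := hconj τ (T σ')
      have h2 : (fun k => τ (T σ' k)) = T σ' := by
        funext k
        exact hτ _ (hTalg σ' k)
      have h3 : (fun I => τ (dR A k (T σ') I)) = dR A k (T σ') := by
        funext I
        exact hτ _ (hFalg σ' I)
      rw [h2, h3] at h1
      exact h1.symm
    | zero => rw [pb_zero, dR, pb_zero, smul_zero, smul_zero]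
    | add y z _ _ hy hz => rw [pb_add, smul_add, hy, hz, dR_add]
    | smul c y _ hy => rw [pb_smul, smul_comm, hy, dR_smul]
  -- rational vectors of `W` are Hodge classes
  have hfix : ∀ v ∈ W, (∀ J, ∃ r : ℚ, v J = r) → pb (h : Pt g).1 v = (h : Pt g).2 ^ k • v := by
    intro v hv hr
    choose β hβ using hr
    have hvβ : v = cq β := funext hβ
    have hHC : IsHodgeClass A k (dR A k v) β := by
      refine ⟨fun I => ?_, fun J => ?_, fun I hI => hWFil v hv I hI⟩
      · refine alg_of_fixed fun τ hτ => ?_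
        have h1 := congrFun (hconj τ v) I
        have h2 : (fun J => τ (v J)) = v := by
          funext J
          rw [hβ J]
          simp
        rw [h2, hWτ τ hτ v hv] at h1
        exact h1
      · have h1 : pb A.per (dR A k v) = tpi ^ k • v := by
          rw [dR, pb_smul, ← pb_mul, per_inv_mul, pb_one]
        have h2 := congrFun h1 J
        rw [Pi.smul_apply, hβ J, smul_eq_mul] at h2
        exact h2
    have h3 := hh k _ β hHC
    rw [hvβ]
    exact h3
  have hfixW : ∀ v ∈ W, pb (h : Pt g).1 v = (h : Pt g).2 ^ k • v := by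
    intro v hv
    have h1 := hWrat hv
    clear hv
    induction h1 using Submodule.span_induction with
    | mem y hy => exact hfix y hy.1 hy.2
    | zero => rw [pb_zero, smul_zero]
    | add y z _ _ hy hz => rw [pb_add, hy, hz, smul_add]
    | smul c y _ hy => rw [pb_smul, hy, smul_comm]
  -- conclusion
  have hT1 : T (AlgEquiv.refl) = fun J => ∏ s, (w s ᵥ* A.riem) (J s) := by
    rw [hT]
    rfl
  have hTW : T (AlgEquiv.refl) ∈ W := by
    rw [hWdef]
    exact Submodule.subset_span ⟨_, rfl⟩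
  have h1 := hfixW _ hTW
  rw [hT1, pb_pure] at h1
  have hdet : IsUnit A.riem.det := (leg_proof g A).2.2.1
  have hu0 : ∀ s, w s ᵥ* A.riem ≠ 0 := by
    intro s h0
    apply hw0 s
    have h2 : (w s ᵥ* A.riem) ᵥ* A.riem⁻¹ = w s := by
      rw [Matrix.vecMul_vecMul, Matrix.mul_nonsing_inv _ hdet, Matrix.vecMul_one]
    rw [← h2, h0, Matrix.zero_vecMul]
  have hJ : ∀ s, ∃ j, (w s ᵥ* A.riem) j ≠ 0 := by
    intro s
    by_contra hcon
    push Not at hcon
    exact hu0 s (funext hcon)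
  choose J hJ using hJ
  have h2 := congrFun h1 J
  have hsim := GH_sim hh
  have h4 : ∀ s, z s • ((w s ᵥ* A.riem) ᵥ* (h : Pt g).1) = (h : Pt g).2 • (w s ᵥ* A.riem) := by
    intro s
    have h5 : ((h : Pt g).1 *ᵥ w s) ᵥ* (A.riem * (h : Pt g).1) =
        w s ᵥ* ((h : Pt g).1ᵀ * A.riem * (h : Pt g).1) := by
      rw [← Matrix.vecMul_transpose, Matrix.vecMul_vecMul, Matrix.mul_assoc]
    rw [hsim, hxw s, Matrix.smul_vecMul, ← Matrix.vecMul_vecMul, Matrix.vecMul_smul] at h5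
    exact h5
  have h5 : (∏ s, z s) * ∏ s, ((w s ᵥ* A.riem) ᵥ* (h : Pt g).1) (J s) =
      (h : Pt g).2 ^ (2 * k) * ∏ s, (w s ᵥ* A.riem) (J s) := by
    rw [← Finset.prod_mul_distrib]
    have h6 : ∀ s, z s * ((w s ᵥ* A.riem) ᵥ* (h : Pt g).1) (J s) =
        (h : Pt g).2 * (w s ᵥ* A.riem) (J s) := fun s => congrFun (h4 s) (J s)
    rw [Finset.prod_congr rfl fun s _ => h6 s, Finset.prod_mul_distrib, Finset.prod_const,
      Finset.card_univ, Fintype.card_fin]
  have h6 : ∏ s, ((w s ᵥ* A.riem) ᵥ* (h : Pt g).1) (J s) =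
      (h : Pt g).2 ^ k * ∏ s, (w s ᵥ* A.riem) (J s) := h2
  have h7 : ∏ s, (w s ᵥ* A.riem) (J s) ≠ 0 := Finset.prod_ne_zero_iff.2 fun s _ => hJ s
  have h8 : (h : Pt g).2 ≠ 0 := (MulEquiv.prodUnits h).2.ne_zero
  rw [h6] at h5
  have h9 : (∏ s, z s) * ((h : Pt g).2 ^ k * ∏ s, (w s ᵥ* A.riem) (J s)) =
      (h : Pt g).2 ^ k * ((h : Pt g).2 ^ k * ∏ s, (w s ᵥ* A.riem) (J s)) := by
    rw [h5]
    ring
  exact mul_right_cancel₀ (mul_ne_zero (pow_ne_zero k h8) h7) h9

end

end Pool.Agent.ABH
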